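import Pool.Agent.Q35.MM.Stm

/-! # Project MM (helper35), job FIN: from boxes to heights -/

set_option autoImplicit false

namespace Pool.Agent.Q241.MM

open Finset Function
open Pool.Agent.Q35.MM

section Scale

variable {K : Type} [Field K] {ι : Type} [Fintype ι] [DecidableEq ι] {n : ι → ℕ}

lemma lin_smul {k : ℕ} (f : Fin k → Frm K n) (c : ι → K) (P : Tup K n) (i : ι) (t : Fin k) :
    lin f (fun l => c l • P l) i t = (∏ l ∈ univ.erase i, c l) • lin f P i t := by
  refine LinearMap.ext fun x => ?_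
  change f t (update (fun l => c l • P l) i x) = (∏ l ∈ univ.erase i, c l) • f t (update P i x)
  have h1 : update (fun l => c l • P l) i x =
      fun l => (if l = i then (1 : K) else c l) • (update P i x) l := by
    funext l
    by_cases h : l = i
    · subst h
      simp
    · rw [update_of_ne h, update_of_ne h, if_neg h]
  rw [h1, MultilinearMap.map_smul_univ]
  congr 1
  rw [← prod_erase (s := univ) (a := i) (f := fun l => if l = i then (1 : K) else c l) (by simp)]
  refine prod_congr rfl fun l hl => ?_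
  rw [if_neg (mem_erase.mp hl).1]

lemma inU_smul {k : ℕ} (f : Fin k → Frm K n) {c : ι → K} (hc : ∀ l, c l ≠ 0) {P : Tup K n}
    (h : InU f P) : InU f (fun l => c l • P l) := by
  refine ⟨fun t => ?_, fun i => ?_⟩
  · rw [MultilinearMap.map_smul_univ, h.1 t, smul_zero]
  · have hu : (∏ l ∈ univ.erase i, c l) ≠ 0 := prod_ne_zero_iff.mpr fun l _ => hc l
    have h1 := (h.2 i).units_smul (fun _ => Units.mk0 _ hu)
    have h2 : lin f (fun l => c l • P l) i = (fun _ => Units.mk0 _ hu : Fin k → Kˣ) • lin f P i := by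
      funext t
      rw [lin_smul]
      rfl
    rw [h2]
    exact h1

end Scale

lemma factor (d n' : ℕ) {P X l a ε δ : ℝ} (hP : 1 ≤ P) (hX : 1 ≤ X) (h1 : (n' : ℝ) ≤ a * l)
    (h2 : 2 * δ ≤ d * l * ε) :
    (P * X) ^ (d * n') * (P * X) ^ δ * (X ^ d) ^ (-(l * (a + ε))) ≤
      P ^ ((d * n' : ℕ) + δ) * X ^ (-δ) := by
  have hP0 : 0 < P := by linarith
  have hX0 : 0 < X := by linarith
  have e1 : (P * X) ^ (d * n') * (P * X) ^ δ * (X ^ d) ^ (-(l * (a + ε))) =
      P ^ ((d * n' : ℕ) + δ) * X ^ ((d * n' : ℕ) + δ - d * (l * (a + ε))) := by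
    rw [← Real.rpow_natCast (P * X), Real.mul_rpow hP0.le hX0.le, Real.mul_rpow hP0.le hX0.le,
      ← Real.rpow_natCast X d, ← Real.rpow_mul hX0.le, Real.rpow_add hP0, Real.rpow_sub hX0,
      Real.rpow_add hX0, mul_neg, Real.rpow_neg hX0.le]
    ring
  rw [e1]
  refine mul_le_mul_of_nonneg_left ?_ (Real.rpow_nonneg hP0.le _)
  refine Real.rpow_le_rpow_of_exponent_le hX ?_
  push_cast
  have hd : (0 : ℝ) ≤ d := Nat.cast_nonneg _
  nlinarith [mul_le_mul_of_nonneg_left h1 hd]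

lemma geom_le {r : ℝ} (hr0 : 0 ≤ r) (hr1 : r < 1) (M : ℕ) : ∑ i ∈ range M, r ^ i ≤ (1 - r)⁻¹ := by
  have h := mul_neg_geom_sum r M
  have h1 : 0 < 1 - r := by linarith
  rw [inv_eq_one_div, le_div_iff₀ h1, mul_comm, h]
  have := pow_nonneg hr0 M
  linarith

theorem fin (hMK : S_MK) : S_FIN := by
  classical
  intro K _ _ ι _ _ n k f hι hk hkn hFF l hl ε hε
  have hne : Nonempty ι := by
    rw [← Fintype.card_pos_iff]
    omega
  have hd : 1 ≤ dg K := Module.finrank_pos
  set a : ℝ := fuj n k l with hadef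
  -- the constant `a`
  have hSne : {s : ℝ | ∀ i, 0 ≤ s * l i - ((n i : ℝ) + 1 - k)}.Nonempty := by
    refine ⟨∑ i, |(n i : ℝ) + 1 - k| / l i, fun i => ?_⟩
    have h1 : |(n i : ℝ) + 1 - k| / l i ≤ ∑ i, |(n i : ℝ) + 1 - k| / l i :=
      single_le_sum (f := fun i => |(n i : ℝ) + 1 - k| / l i)
        (fun j _ => div_nonneg (abs_nonneg _) (hl j).le) (mem_univ i)
    rw [div_le_iff₀ (hl i)] at h1
    have h2 := le_abs_self ((n i : ℝ) + 1 - k)
    linarith
  have ha : ∀ i, ((n i + 1 - k : ℕ) : ℝ) ≤ a * l i := by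
    intro i
    have h1 : ((n i : ℝ) + 1 - k) / l i ≤ a := by
      rw [hadef]
      refine le_csInf hSne fun s hs => ?_
      rw [div_le_iff₀ (hl i)]
      have := hs i
      linarith
    rw [div_le_iff₀ (hl i)] at h1
    have h2 : k ≤ n i + 1 := (hkn i).trans (Nat.le_succ _)
    rw [Nat.cast_sub h2]
    push_cast
    exact h1
  have ha0 : 0 ≤ a := by
    obtain ⟨i⟩ := hne
    have h1 : (0 : ℝ) ≤ a * l i := (Nat.cast_nonneg _).trans (ha i)
    exact nonneg_of_mul_nonneg_left h1 (hl i)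
  have hae : 0 < a + ε := by linarith
  -- the choice of `δ`
  obtain ⟨δ, hδ, hδ2⟩ : ∃ δ : ℝ, 0 < δ ∧ ∀ i, 2 * δ ≤ dg K * l i * ε := by
    obtain ⟨i0, -, hi0⟩ := exists_min_image univ l ⟨Classical.arbitrary ι, mem_univ _⟩
    have hd' : (0 : ℝ) < dg K := by exact_mod_cast hd
    refine ⟨dg K * l i0 * ε / 2, by have := hl i0; positivity, fun i => ?_⟩
    have h1 := hi0 i (mem_univ i)
    have h2 : (dg K : ℝ) * l i0 ≤ dg K * l i := mul_le_mul_of_nonneg_left h1 hd'.le
    nlinarith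
  obtain ⟨C, hC, hCb⟩ := hFF δ hδ
  obtain ⟨c, hc, hMKc⟩ := hMK K
  set r : ℝ := (2 : ℝ) ^ (-δ) with hr
  have hr0 : 0 ≤ r := Real.rpow_nonneg (by norm_num) _
  have hr1 : r < 1 := Real.rpow_lt_one_of_one_lt_of_neg (by norm_num) (by linarith)
  have hc1 : (1 : ℝ) ≤ c := by exact_mod_cast hc
  set Pc : ℝ := 2 * c with hPc
  have hP1 : 1 ≤ Pc := by linarith
  -- dyadic height
  have hex : ∀ (x : Pts K n), ∃ e : ι → ℕ, ∀ i, ((2 : ℝ) ^ dg K) ^ e i ≤ (x i).mulHeight ∧
      (x i).mulHeight < ((2 : ℝ) ^ dg K) ^ (e i + 1) := by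
    intro x
    have h1 : ∀ i, ∃ e : ℕ, ((2 : ℝ) ^ dg K) ^ e ≤ (x i).mulHeight ∧
        (x i).mulHeight < ((2 : ℝ) ^ dg K) ^ (e + 1) := fun i =>
      exists_nat_pow_near (x i).one_le_mulHeight (one_lt_pow₀ (by norm_num) (by omega))
    choose e he using h1
    exact ⟨e, he⟩
  choose ex hex1 using hex
  -- representatives
  have hrep : ∀ (x : Pts K n) (i : ι), ∃ t : K, t ≠ 0 ∧
      t • (x i).rep ∈ bx K (n i + 1) (c * 2 ^ (ex x i + 1)) := by
    intro x i
    refine hMKc (n i + 1) (x i).rep (x i).rep_nonzero (2 ^ (ex x i + 1)) Nat.one_le_two_pow ?_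
    have h1 : Height.mulHeight (x i).rep = (x i).mulHeight := by
      conv_rhs => rw [← (x i).mk_rep]
      rw [Projectivization.mulHeight_mk]
    rw [h1]
    refine (hex1 x i).2.le.trans (le_of_eq ?_)
    push_cast
    rw [← pow_mul, ← pow_mul, mul_comm]
  choose t ht0 htb using hrep
  set w : Pts K n → ℝ := fun x => ∏ i, (x i).mulHeight ^ (-(l i * (a + ε))) with hw
  set K1 : ℝ := C * ∏ i, Pc ^ (((dg K * (n i + 1 - k) : ℕ) : ℝ) + δ) with hK1
  have hK10 : 0 ≤ K1 := mul_nonneg hC (prod_nonneg fun i _ => Real.rpow_nonneg (by linarith) _)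
  -- one class
  have hclass : ∀ (Z : Finset (Pts K n)), (∀ x ∈ Z, InU f (fun i => (x i).rep)) → ∀ e : ι → ℕ,
      ∑ x ∈ Z.filter (fun x => ex x = e), w x ≤ K1 * ∏ i, r ^ e i := by
    intro Z hZ e
    have hcard : (Z.filter (fun x => ex x = e)).card ≤ (FF f (fun i => c * 2 ^ (e i + 1))).card := by
      refine card_le_card_of_injOn (fun x i => t x i • (x i).rep) ?_ ?_
      · intro x hx
        rw [mem_coe, mem_filter] at hx
        rw [mem_coe]
        unfold FF
        rw [mem_filter, Fintype.mem_piFinset]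
        refine ⟨fun i => ?_, inU_smul f (ht0 x) (hZ x hx.1)⟩
        have := htb x i
        rw [hx.2] at this
        exact this
      · intro x _ x' _ h
        funext i
        have h1 : t x i • (x i).rep = t x' i • (x' i).rep := congrFun h i
        rw [← (x i).mk_rep, ← (x' i).mk_rep, Projectivization.mk_eq_mk_iff']
        refine ⟨(t x i)⁻¹ * t x' i, ?_⟩
        rw [mul_smul, ← h1, ← mul_smul, inv_mul_cancel₀ (ht0 x i), one_smul]
    have hwt : ∀ x ∈ Z.filter (fun x => ex x = e),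
        w x ≤ ∏ i, (((2 : ℝ) ^ e i) ^ dg K) ^ (-(l i * (a + ε))) := by
      intro x hx
      rw [mem_filter] at hx
      refine prod_le_prod (fun i _ => Real.rpow_nonneg (x i).mulHeight_pos.le _) fun i _ => ?_
      refine Real.rpow_le_rpow_of_nonpos (by positivity) ?_ ?_
      · have h1 := (hex1 x i).1
        rw [hx.2, ← pow_mul, mul_comm, pow_mul] at h1
        exact h1
      · have := hl i
        have h2 : 0 ≤ l i * (a + ε) := by positivity
        linarith
    have hw0 : 0 ≤ ∏ i, (((2 : ℝ) ^ e i) ^ dg K) ^ (-(l i * (a + ε))) :=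
      prod_nonneg fun i _ => Real.rpow_nonneg (by positivity) _
    have h2 := hCb (fun i => c * 2 ^ (e i + 1)) (fun i => by
      have := Nat.one_le_two_pow (n := e i + 1)
      exact Nat.one_le_iff_ne_zero.mpr (by positivity))
    have hcast : ∀ i, ((c * 2 ^ (e i + 1) : ℕ) : ℝ) = Pc * 2 ^ e i := by
      intro i
      rw [hPc]
      push_cast
      ring
    simp only [hcast] at h2
    rw [← Real.finset_prod_rpow _ _ (fun i _ => by positivity)] at h2
    calc ∑ x ∈ Z.filter (fun x => ex x = e), w x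
        ≤ ∑ _x ∈ Z.filter (fun x => ex x = e), ∏ i, (((2 : ℝ) ^ e i) ^ dg K) ^ (-(l i * (a + ε))) :=
          sum_le_sum hwt
      _ = ((Z.filter (fun x => ex x = e)).card : ℝ) *
            ∏ i, (((2 : ℝ) ^ e i) ^ dg K) ^ (-(l i * (a + ε))) := by
          rw [sum_const, nsmul_eq_mul]
      _ ≤ (C * (∏ i, (Pc * 2 ^ e i) ^ (dg K * (n i + 1 - k))) * ∏ i, (Pc * 2 ^ e i) ^ δ) *
            ∏ i, (((2 : ℝ) ^ e i) ^ dg K) ^ (-(l i * (a + ε))) := by
          refine mul_le_mul_of_nonneg_right ?_ hw0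
          exact (Nat.cast_le.mpr hcard).trans h2
      _ = C * ∏ i, ((Pc * 2 ^ e i) ^ (dg K * (n i + 1 - k)) * (Pc * 2 ^ e i) ^ δ *
            (((2 : ℝ) ^ e i) ^ dg K) ^ (-(l i * (a + ε)))) := by
          rw [prod_mul_distrib, prod_mul_distrib]
          ring
      _ ≤ C * ∏ i, (Pc ^ (((dg K * (n i + 1 - k) : ℕ) : ℝ) + δ) * ((2 : ℝ) ^ e i) ^ (-δ)) := by
          refine mul_le_mul_of_nonneg_left ?_ hC
          refine prod_le_prod (fun i _ => by positivity) fun i _ => ?_
          exact factor _ _ hP1 (one_le_pow₀ (by norm_num)) (ha i) (hδ2 i)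
      _ = K1 * ∏ i, r ^ e i := by
          rw [prod_mul_distrib, hK1, ← mul_assoc]
          congr 1
          refine prod_congr rfl fun i _ => ?_
          rw [hr, ← Real.rpow_natCast, ← Real.rpow_natCast, ← Real.rpow_mul (by norm_num),
            ← Real.rpow_mul (by norm_num), mul_comm]
  -- all classes
  have hall : ∀ (Z : Finset (Pts K n)), (∀ x ∈ Z, InU f (fun i => (x i).rep)) →
      ∑ x ∈ Z, w x ≤ K1 * ((1 - r)⁻¹) ^ Fintype.card ι := by
    intro Z hZ
    set M : ℕ := (Z.sup fun x => univ.sup (ex x)) + 1 with hM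
    have hmaps : ∀ x ∈ Z, ex x ∈ Fintype.piFinset (fun _ : ι => range M) := by
      intro x hx
      rw [Fintype.mem_piFinset]
      intro i
      rw [mem_range, hM, Nat.lt_succ_iff]
      exact (le_sup (f := ex x) (mem_univ i)).trans (le_sup (f := fun x => univ.sup (ex x)) hx)
    rw [← sum_fiberwise_of_maps_to hmaps]
    calc ∑ e ∈ Fintype.piFinset (fun _ : ι => range M), ∑ x ∈ Z.filter (fun x => ex x = e), w x
        ≤ ∑ e ∈ Fintype.piFinset (fun _ : ι => range M), K1 * ∏ i, r ^ e i :=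
          sum_le_sum fun e _ => hclass Z hZ e
      _ = K1 * ∏ _i : ι, ∑ j ∈ range M, r ^ j := by
          rw [← mul_sum, prod_univ_sum]
      _ ≤ K1 * ((1 - r)⁻¹) ^ Fintype.card ι := by
          refine mul_le_mul_of_nonneg_left ?_ hK10
          rw [prod_const, card_univ]
          exact pow_le_pow_left₀ (sum_nonneg fun j _ => pow_nonneg hr0 j) (geom_le hr0 hr1 M) _
  -- Rankin
  set C' : ℝ := K1 * ((1 - r)⁻¹) ^ Fintype.card ι with hC'
  have hC'0 : 0 ≤ C' := mul_nonneg hK10 (pow_nonneg (inv_nonneg.mpr (by linarith)) _)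
  refine ⟨C', fun T hT => ?_⟩
  have hT0 : 0 < T := by linarith
  have hrank : ∀ Z : Finset (Pts K n), (↑Z : Set (Pts K n)) ⊆ Low f l T →
      (Z.card : ℝ) ≤ C' * T ^ (a + ε) := by
    intro Z hZ
    have h1 : ∀ x ∈ Z, (1 : ℝ) ≤ T ^ (a + ε) * w x := by
      intro x hx
      obtain ⟨-, h2⟩ := hZ hx
      have h3 : w x = (∏ i, (x i).mulHeight ^ l i) ^ (-(a + ε)) := by
        rw [hw]
        simp only
        rw [← Real.finset_prod_rpow _ _ (fun i _ => Real.rpow_nonneg (x i).mulHeight_pos.le _)]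
        refine prod_congr rfl fun i _ => ?_
        rw [← Real.rpow_mul (x i).mulHeight_pos.le]
        congr 1
        ring
      have hpos : 0 < ∏ i, (x i).mulHeight ^ l i :=
        prod_pos fun i _ => Real.rpow_pos_of_pos (x i).mulHeight_pos _
      have h4 : T ^ (-(a + ε)) ≤ w x := by
        rw [h3]
        exact Real.rpow_le_rpow_of_nonpos hpos h2 (by linarith)
      calc (1 : ℝ) = T ^ (a + ε) * T ^ (-(a + ε)) := by
            rw [← Real.rpow_add hT0, add_neg_cancel, Real.rpow_zero]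
        _ ≤ T ^ (a + ε) * w x := mul_le_mul_of_nonneg_left h4 (Real.rpow_nonneg hT0.le _)
    calc (Z.card : ℝ) = ∑ _x ∈ Z, (1 : ℝ) := by simp
      _ ≤ ∑ x ∈ Z, T ^ (a + ε) * w x := sum_le_sum h1
      _ = T ^ (a + ε) * ∑ x ∈ Z, w x := by rw [mul_sum]
      _ ≤ T ^ (a + ε) * C' := mul_le_mul_of_nonneg_left (hall Z fun x hx => (hZ hx).1)
          (Real.rpow_nonneg hT0.le _)
      _ = C' * T ^ (a + ε) := mul_comm _ _
  have hfin : (Low f l T).Finite := by
    by_contra hinf
    obtain ⟨Z, hZ1, hZ2⟩ := Set.Infinite.exists_subset_card_eq hinf (⌊C' * T ^ (a + ε)⌋₊ + 1)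
    have h1 := hrank Z hZ1
    rw [hZ2] at h1
    have h2 := Nat.lt_floor_add_one (C' * T ^ (a + ε))
    push_cast at h1
    linarith
  refine ⟨hfin, ?_⟩
  rw [Set.ncard_eq_toFinset_card _ hfin]
  exact hrank _ (by simp)

end Pool.Agent.Q241.MM
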