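import Mathlib

/-! # Project MM (helper35), job NE: generic linear independence -/

set_option autoImplicit false

namespace Pool.Agent.Q241.MM

open Finset Function

section Generic

variable {K : Type} [Field K] {m k N : ℕ}

/-- the generic matrix -/
noncomputable def gen (B : Fin k → Matrix (Fin N) (Fin m) K) :
    Matrix (Fin N) (Fin k) (MvPolynomial (Fin m) K) :=
  fun a t => ∑ b, MvPolynomial.C (B t a b) * MvPolynomial.X b

lemma eval_gen (B : Fin k → Matrix (Fin N) (Fin m) K) (z : Fin m → K) (a : Fin N) (t : Fin k) :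
    MvPolynomial.eval z (gen B a t) = (B t).mulVec z a := by
  unfold gen
  rw [map_sum]
  simp [Matrix.mulVec, dotProduct]

lemma pderiv_gen (B : Fin k → Matrix (Fin N) (Fin m) K) (h : Fin m) (a : Fin N) (t : Fin k) :
    MvPolynomial.pderiv h (gen B a t) = MvPolynomial.C (B t a h) := by
  classical
  unfold gen
  rw [map_sum]
  simp only [MvPolynomial.pderiv_C_mul, MvPolynomial.pderiv_X]
  rw [Finset.sum_eq_single h]
  · simp
  · intro b _ hb
    rw [Pi.single_eq_of_ne hb, mul_zero]
  · intro h'
    exact absurd (mem_univ h) h'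

lemma rank_lt {W : Matrix (Fin N) (Fin k) K} {μ : Fin k → K} (hμ : μ ≠ 0) (h : W.mulVec μ = 0) :
    W.rank < k := by
  have h1 := LinearMap.finrank_range_add_finrank_ker W.mulVecLin
  rw [Module.finrank_fin_fun] at h1
  have h2 : 0 < Module.finrank K (LinearMap.ker W.mulVecLin) := by
    rw [Module.finrank_pos_iff_exists_ne_zero]
    refine ⟨⟨μ, ?_⟩, fun h3 => hμ (congrArg Subtype.val h3)⟩
    rw [LinearMap.mem_ker, Matrix.mulVecLin_apply]
    exact h
  unfold Matrix.rank
  omega

lemma generic1 [Infinite K] (B : Fin k → Matrix (Fin N) (Fin m) K)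
    (hB : ∀ μ : Fin k → K, μ ≠ 0 → k ≤ (∑ t, μ t • B t).rank) :
    ∃ Q : MvPolynomial (Fin m) K, Q ≠ 0 ∧
      ∀ z, MvPolynomial.eval z Q ≠ 0 → LinearIndependent K (fun t => (B t).mulVec z) := by
  classical
  let R := MvPolynomial (Fin m) K
  let F := FractionRing R
  let A : Matrix (Fin N) (Fin k) R := gen B
  let AF : Matrix (Fin N) (Fin k) F := A.map (algebraMap R F)
  have hAF : ∀ a t, AF a t = algebraMap R F (A a t) := fun a t => rfl
  by_cases hker : LinearMap.ker AF.mulVecLin = ⊥
  · obtain ⟨g, hg⟩ := AF.mulVecLin.exists_leftInverse_of_injective hker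
    let Cm : Matrix (Fin k) (Fin N) F := LinearMap.toMatrix' g
    have hC : Cm * AF = 1 := by
      have h1 := congrArg LinearMap.toMatrix' hg
      rw [LinearMap.toMatrix'_comp, LinearMap.toMatrix'_id, ← Matrix.toLin'_apply' AF,
        LinearMap.toMatrix'_toLin'] at h1
      exact h1
    obtain ⟨d, hd⟩ := IsLocalization.exist_integer_multiples_of_finite (nonZeroDivisors R)
      (fun p : Fin k × Fin N => Cm p.1 p.2)
    choose C' hC' using hd
    refine ⟨d, nonZeroDivisors.ne_zero d.2, fun z hz => ?_⟩
    have hid : ∀ t s, ∑ a, C' (t, a) * A a s = if t = s then (d : R) else 0 := by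
      intro t s
      apply IsFractionRing.injective R F
      rw [map_sum]
      have h2 : ∀ a, algebraMap R F (C' (t, a) * A a s) = algebraMap R F d * (Cm t a * AF a s) := by
        intro a
        rw [map_mul, hC' (t, a), hAF, Algebra.smul_def, mul_assoc]
      rw [sum_congr rfl fun a _ => h2 a, ← mul_sum]
      have h := congrFun (congrFun hC t) s
      rw [Matrix.mul_apply, Matrix.one_apply] at h
      rw [h]
      split_ifs <;> simp
    rw [Fintype.linearIndependent_iff]
    intro g hg t
    have h1 : ∀ a, ∑ s, MvPolynomial.eval z (A a s) * g s = 0 := by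
      intro a
      have h2 := congrFun hg a
      rw [Finset.sum_apply] at h2
      rw [Pi.zero_apply] at h2
      rw [← h2]
      refine sum_congr rfl fun s _ => ?_
      rw [Pi.smul_apply, smul_eq_mul, mul_comm, ← eval_gen]
    have h2 : ∑ a, MvPolynomial.eval z (C' (t, a)) * ∑ s, MvPolynomial.eval z (A a s) * g s = 0 :=
      sum_eq_zero fun a _ => by rw [h1 a, mul_zero]
    have h3 : ∑ a, MvPolynomial.eval z (C' (t, a)) * ∑ s, MvPolynomial.eval z (A a s) * g s =
        ∑ s, MvPolynomial.eval z (∑ a, C' (t, a) * A a s) * g s := by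
      simp_rw [mul_sum, map_sum, sum_mul]
      rw [sum_comm]
      refine sum_congr rfl fun s _ => sum_congr rfl fun a _ => ?_
      rw [map_mul]
      ring
    rw [h3] at h2
    have h4 : ∑ s, MvPolynomial.eval z (∑ a, C' (t, a) * A a s) * g s =
        MvPolynomial.eval z (d : R) * g t := by
      rw [sum_eq_single t]
      · rw [hid, if_pos rfl]
      · intro s _ hs
        rw [hid, if_neg (Ne.symm hs), map_zero, zero_mul]
      · intro h'
        exact absurd (mem_univ t) h'
    rw [h4] at h2
    exact (mul_eq_zero.mp h2).resolve_left hz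
  · exfalso
    obtain ⟨v, hv, hv0⟩ := Submodule.exists_mem_ne_zero_of_ne_bot hker
    rw [LinearMap.mem_ker, Matrix.mulVecLin_apply] at hv
    obtain ⟨d, hd⟩ := IsLocalization.exist_integer_multiples_of_finite (nonZeroDivisors R) v
    choose v' hv' using hd
    have hd0 : algebraMap R F (d : R) ≠ 0 := by
      intro h
      exact nonZeroDivisors.ne_zero d.2 ((IsFractionRing.injective R F) (by rw [h, map_zero]))
    obtain ⟨t0, ht0⟩ : ∃ t, v' t ≠ 0 := by
      by_contra hcon
      push Not at hcon
      apply hv0
      funext t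
      have h1 := hv' t
      rw [hcon t, map_zero, Algebra.smul_def] at h1
      exact (mul_eq_zero.mp h1.symm).resolve_left hd0
    have hrel : ∀ a, ∑ t, A a t * v' t = 0 := by
      intro a
      apply IsFractionRing.injective R F
      rw [map_zero, map_sum]
      have h1 := congrFun hv a
      rw [Matrix.mulVec, dotProduct, Pi.zero_apply] at h1
      have h2 : ∀ t, algebraMap R F (A a t * v' t) = algebraMap R F d * (AF a t * v t) := by
        intro t
        rw [map_mul, hv' t, hAF, Algebra.smul_def]
        ring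
      rw [sum_congr rfl fun t _ => h2 t, ← mul_sum, h1, mul_zero]
    obtain ⟨z, hz⟩ : ∃ z, MvPolynomial.eval z (v' t0) ≠ 0 := by
      by_contra hcon
      push Not at hcon
      exact ht0 (MvPolynomial.funext fun z => by rw [hcon z, map_zero])
    set μ : Fin k → K := fun t => MvPolynomial.eval z (v' t) with hμ
    have hμ0 : μ ≠ 0 := fun h => hz (congrFun h t0)
    let W : Matrix (Fin N) (Fin k) K := fun a t => (B t).mulVec z a
    let G : Matrix (Fin k) (Fin m) K := fun t h => MvPolynomial.eval z (MvPolynomial.pderiv h (v' t))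
    have hWμ : W.mulVec μ = 0 := by
      funext a
      have h1 := congrArg (MvPolynomial.eval z) (hrel a)
      rw [map_sum, map_zero] at h1
      rw [Matrix.mulVec, dotProduct, Pi.zero_apply, ← h1]
      refine sum_congr rfl fun t _ => ?_
      rw [map_mul, eval_gen]
    have hBW : ∑ t, μ t • B t = W * (-G) := by
      ext a h
      rw [Matrix.mul_neg, Matrix.neg_apply, Matrix.mul_apply, Matrix.sum_apply]
      have h0 : MvPolynomial.pderiv h (∑ t, A a t * v' t) = 0 := by rw [hrel a, map_zero]
      rw [map_sum] at h0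
      have h0' : ∑ t, (MvPolynomial.pderiv h (A a t) * v' t + A a t * MvPolynomial.pderiv h (v' t)) =
          0 := by
        rw [← h0]
        exact sum_congr rfl fun t _ => MvPolynomial.pderiv_mul.symm
      have h1 := congrArg (MvPolynomial.eval z) h0'
      rw [map_zero, map_sum] at h1
      simp only [map_add, map_mul] at h1
      rw [sum_add_distrib] at h1
      have h2 : ∑ t, (μ t • B t) a h = ∑ t, MvPolynomial.eval z (MvPolynomial.pderiv h (A a t)) *
          MvPolynomial.eval z (v' t) := by
        refine sum_congr rfl fun t _ => ?_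
        have h3 : MvPolynomial.pderiv h (A a t) = MvPolynomial.C (B t a h) := pderiv_gen B h a t
        rw [h3, MvPolynomial.eval_C, Matrix.smul_apply, smul_eq_mul, mul_comm]
      have h3 : ∑ t, W a t * G t h = ∑ t, MvPolynomial.eval z (A a t) *
          MvPolynomial.eval z (MvPolynomial.pderiv h (v' t)) := by
        refine sum_congr rfl fun t _ => ?_
        have h4 : MvPolynomial.eval z (A a t) = (B t).mulVec z a := eval_gen B z a t
        rw [h4]
      rw [h2, h3]
      linear_combination h1
    have h1 := hB μ hμ0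
    rw [hBW] at h1
    have h2 := Matrix.rank_mul_le_left W (-G)
    have h3 := rank_lt hμ0 hWμ
    omega

lemma generic [Infinite K] {L : Type} [Fintype L] {m k : ℕ} (N : L → ℕ)
    (B : ∀ l, Fin k → Matrix (Fin (N l)) (Fin m) K)
    (hB : ∀ l, ∀ μ : Fin k → K, μ ≠ 0 → k ≤ (∑ t, μ t • B l t).rank) :
    ∃ z : Fin m → K, ∀ l, LinearIndependent K (fun t => (B l t).mulVec z) := by
  choose Q hQ0 hQ using fun l => generic1 (B l) (hB l)
  have h1 : ∏ l, Q l ≠ 0 := prod_ne_zero_iff.mpr fun l _ => hQ0 l
  obtain ⟨z, hz⟩ : ∃ z, MvPolynomial.eval z (∏ l, Q l) ≠ 0 := by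
    by_contra hcon
    push Not at hcon
    exact h1 (MvPolynomial.funext fun z => by rw [hcon z, map_zero])
  rw [map_prod, prod_ne_zero_iff] at hz
  exact ⟨z, fun l => hQ l z (hz l (mem_univ l))⟩

end Generic

end Pool.Agent.Q241.MM
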