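import Pool.Agent.Q35.MM.Stm
import Pool.Agent.Q241.MM.Gen

/-! # Project MM (helper35), job NE: there are points (algebraic proof, without counting) -/

set_option autoImplicit false

namespace Pool.Agent.Q241.MM

open Finset Function
open Pool.Agent.Q35.MM

section

variable {K : Type} [Field K] {ι : Type} [DecidableEq ι] {n : ι → ℕ}

lemma mulVec_mat (g : Frm K n) (P : Tup K n) {i j : ι} (y : Fin (n j + 1) → K)
    (a : Fin (n i + 1)) :
    (mat g P i j).mulVec y a = g (update (update P i (Pi.single a 1)) j y) := by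
  have h : g (update (update P i (Pi.single a 1)) j y) =
      g.toLinearMap (update P i (Pi.single a 1)) j y := rfl
  have hy : y = ∑ b, y b • (Pi.single b 1 : Fin (n j + 1) → K) := by
    funext c
    simp [Finset.sum_apply, Pi.single_apply]
  rw [h]
  conv_rhs => rw [hy]
  rw [map_sum, Matrix.mulVec, dotProduct]
  refine sum_congr rfl fun b _ => ?_
  rw [map_smul, smul_eq_mul, mul_comm]
  rfl

lemma mat_sum {k : ℕ} (f : Fin k → Frm K n) (μ : Fin k → K) (P : Tup K n) (i j : ι) :
    ∑ t, μ t • mat (f t) P i j = mat (∑ t, μ t • f t) P i j := by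
  ext a b
  rw [Matrix.sum_apply]
  unfold mat
  rw [MultilinearMap.sum_apply]
  rfl

/-- linear independence of functionals from that of the vectors of values -/
lemma indep_of_values {N k : ℕ} {φ : Fin k → (Fin N → K) →ₗ[K] K}
    (h : LinearIndependent K (fun t => fun a => φ t (Pi.single a 1))) : LinearIndependent K φ := by
  rw [Fintype.linearIndependent_iff] at h ⊢
  intro g hg t
  refine h g ?_ t
  funext a
  have h1 := congrArg (fun ψ : (Fin N → K) →ₗ[K] K => ψ (Pi.single a 1)) hg
  simp only [LinearMap.sum_apply, LinearMap.smul_apply, LinearMap.zero_apply] at h1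
  rw [Finset.sum_apply, Pi.zero_apply, ← h1]
  rfl

lemma rank_comp {N N' m : ℕ} (T : Matrix (Fin N') (Fin N) K) (Φ : Matrix (Fin N) (Fin m) K)
    (hΦ : Injective Φ.mulVecLin) : T.rank + m ≤ (T * Φ).rank + N := by
  have h1 := LinearMap.finrank_range_add_finrank_ker (T * Φ).mulVecLin
  have h2 := LinearMap.finrank_range_add_finrank_ker T.mulVecLin
  rw [Module.finrank_fin_fun] at h1 h2
  have h3 : Module.finrank K (LinearMap.ker (T * Φ).mulVecLin) ≤
      Module.finrank K (LinearMap.ker T.mulVecLin) := by
    have hmem : ∀ x : LinearMap.ker (T * Φ).mulVecLin, Φ.mulVecLin x ∈ LinearMap.ker T.mulVecLin := by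
      intro x
      have hx := x.2
      rw [LinearMap.mem_ker] at hx ⊢
      rw [Matrix.mulVecLin_apply] at hx ⊢
      rw [Matrix.mulVecLin_apply, Matrix.mulVec_mulVec]
      exact hx
    refine LinearMap.finrank_le_finrank_of_injective
      (f := (Φ.mulVecLin.comp (LinearMap.ker (T * Φ).mulVecLin).subtype).codRestrict _ hmem) ?_
    intro x y hxy
    have h4 := congrArg Subtype.val hxy
    exact Subtype.ext (hΦ h4)
  unfold Matrix.rank
  omega

end

theorem ne_thm : S_NE := by
  classical
  intro K _ _ ι _ _ n k f hι hk hn hrk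
  haveI : Infinite K := Infinite.of_injective ((↑) : ℕ → K) Nat.cast_injective
  have hn2 : ∀ i, k ^ 2 ≤ n i := by
    intro i
    refine le_trans ?_ (hn i)
    exact Nat.le_mul_of_pos_right _ (by omega)
  obtain ⟨i, j, hij⟩ := Fintype.exists_pair_of_one_lt_card (α := ι) (by omega)
  -- step 1
  set P0 : Tup K n := fun _ _ => 1 with hP0
  have hP0ne : ∀ l, P0 l ≠ 0 := fun l h => one_ne_zero (congrFun h (0 : Fin (n l + 1)))
  have hk2 : k ≤ k ^ 2 + 1 := by nlinarith
  obtain ⟨y, hy⟩ := generic1 (fun t => mat (f t) P0 i j) (fun μ hμ => by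
    rw [mat_sum]
    exact hk2.trans (hrk μ hμ i j hij P0 (fun l _ _ => hP0ne l)))
  obtain ⟨hy0, hy⟩ := hy
  obtain ⟨y1, hy1⟩ : ∃ z, MvPolynomial.eval z y ≠ 0 := by
    by_contra hcon
    push Not at hcon
    exact hy0 (MvPolynomial.funext fun z => by rw [hcon z, map_zero])
  have hind := hy y1 hy1
  set P : Tup K n := update P0 j y1 with hP
  have hPi : LinearIndependent K (lin f P i) := by
    refine indep_of_values ?_
    have h1 : (fun t => fun a => lin f P i t (Pi.single a 1)) =
        fun t => (mat (f t) P0 i j).mulVec y1 := by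
      funext t a
      rw [mulVec_mat]
      change f t (update (update P0 j y1) i (Pi.single a 1)) = _
      rw [update_comm hij]
    rw [h1]
    exact hind
  have hPne : ∀ l, P l ≠ 0 := by
    intro l
    by_cases hl : l = j
    · subst hl
      rw [hP, update_self]
      intro h
      have h1 := hPi.ne_zero (⟨0, hk⟩ : Fin k)
      apply h1
      refine LinearMap.ext fun x => ?_
      change f _ (update P i x) = 0
      refine MultilinearMap.map_coord_zero _ l ?_
      rw [update_of_ne hij.symm, hP, update_self, h]
    · rw [hP, update_of_ne hl]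
      exact hP0ne l
  -- step 2
  set Lm : (Fin (n i + 1) → K) →ₗ[K] (Fin k → K) := LinearMap.pi (lin f P i) with hLm
  set V : Submodule K (Fin (n i + 1) → K) := LinearMap.ker Lm with hV
  have hVdim : n i + 1 ≤ Module.finrank K V + k := by
    have h1 : Module.finrank K (LinearMap.range Lm) + Module.finrank K V =
      Module.finrank K (Fin (n i + 1) → K) := LinearMap.finrank_range_add_finrank_ker Lm
    rw [Module.finrank_fin_fun] at h1
    have h2 := Submodule.finrank_le (LinearMap.range Lm)
    rw [Module.finrank_fin_fun] at h2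
    omega
  set m := Module.finrank K V with hm
  let e : (Fin m → K) ≃ₗ[K] V := (Module.finBasis K V).equivFun.symm
  let φ : (Fin m → K) →ₗ[K] (Fin (n i + 1) → K) := V.subtype.comp e.toLinearMap
  let Φ : Matrix (Fin (n i + 1)) (Fin m) K := LinearMap.toMatrix' φ
  have hΦ : Φ.mulVecLin = φ := by
    rw [← Matrix.toLin'_apply', Matrix.toLin'_toMatrix']
  have hΦinj : Injective Φ.mulVecLin := by
    rw [hΦ]
    intro a b hab
    exact e.injective (Subtype.ext hab)
  obtain ⟨z, hz⟩ := generic (L := {l // l ≠ i}) (fun l => n l.1 + 1)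
    (fun l t => mat (f t) P l.1 i * Φ) (fun l μ hμ => by
      have h1 : ∑ t, μ t • (mat (f t) P l.1 i * Φ) = mat (∑ t, μ t • f t) P l.1 i * Φ := by
        rw [← mat_sum, Matrix.sum_mul]
        exact sum_congr rfl fun t _ => (Matrix.smul_mul _ _ _).symm
      rw [h1]
      have h2 := rank_comp (mat (∑ t, μ t • f t) P l.1 i) Φ hΦinj
      have h3 := hrk μ hμ l.1 i l.2 P (fun l _ _ => hPne l)
      have h4 : 2 * k ≤ k ^ 2 + 1 := by
        zify
        nlinarith [sq_nonneg ((k : ℤ) - 1)]
      omega)
  set x : Fin (n i + 1) → K := φ z with hx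
  have hxV : x ∈ V := (e z).2
  have hx0 : ∀ t, f t (update P i x) = 0 := by
    intro t
    have h1 : Lm x = 0 := hxV
    exact congrFun h1 t
  refine ⟨update P i x, hx0, fun l => ?_⟩
  by_cases hl : l = i
  · subst hl
    have h1 : lin f (update P l x) l = lin f P l := by
      funext t
      refine LinearMap.ext fun x' => ?_
      change f t (update (update P l x) l x') = f t (update P l x')
      rw [update_idem]
    rw [h1]
    exact hPi
  · refine indep_of_values ?_
    have h1 : (fun t => fun b => lin f (update P i x) l t (Pi.single b 1)) =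
        fun t => (mat (f t) P l i * Φ).mulVec z := by
      funext t b
      rw [← Matrix.mulVec_mulVec, mulVec_mat]
      have h2 : Φ.mulVec z = x := by
        have h3 : Φ.mulVecLin z = φ z := by rw [hΦ]
        exact h3
      rw [h2]
      change f t (update (update P i x) l (Pi.single b 1)) = _
      rw [update_comm hl]
    rw [h1]
    exact hz ⟨l, hl⟩

/-- **job NE** -/
theorem ne (_hDB : S_DB) (_hLW : S_LW) (_hCR : S_CR) : S_NE := ne_thm

end Pool.Agent.Q241.MM
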